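import Pool.Agent.H338R3.Spl.Func

set_option autoImplicit false

namespace H338Spl

open Polynomial Finset

universe u

section Horner

variable {R : Type u} [CommRing R] {T : Type u} [AddCommGroup T] [Module R[X] T]

/-- the piece of the Horner functional belonging to `X ^ j` -/
noncomputable def Hj (μ : T →+ R) (j : ℕ) (s : T) : R[X] :=
  ∑ i ∈ range j, C (μ ((X ^ (j - 1 - i) : R[X]) • s)) * X ^ i

noncomputable def Lam (μ : T →+ R) (g : R[X]) (s : T) : R[X] :=
  ∑ j ∈ range (g.natDegree + 1), C (g.coeff j) * Hj μ j s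

lemma Hj_add (μ : T →+ R) (j : ℕ) (s t : T) : Hj μ j (s + t) = Hj μ j s + Hj μ j t := by
  unfold Hj
  rw [← Finset.sum_add_distrib]
  apply Finset.sum_congr rfl
  intro i _
  rw [smul_add, map_add, C_add, add_mul]

lemma Hj_C (μ : T →+ R) (hμ : ∀ (r : R) (t : T), μ ((C r : R[X]) • t) = r * μ t) (j : ℕ)
    (r : R) (s : T) : Hj μ j ((C r : R[X]) • s) = C r * Hj μ j s := by
  unfold Hj
  rw [Finset.mul_sum]
  apply Finset.sum_congr rfl
  intro i _
  rw [smul_comm (X ^ (j - 1 - i) : R[X]) (C r) s, hμ, C_mul, mul_assoc]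

lemma Hj_X (μ : T →+ R) (j : ℕ) (s : T) :
    X * Hj μ j s - Hj μ j ((X : R[X]) • s) = C (μ s) * X ^ j - C (μ ((X ^ j : R[X]) • s)) := by
  have h := Finset.sum_range_sub (fun i => C (μ ((X ^ (j - i) : R[X]) • s)) * (X : R[X]) ^ i) j
  simp only [Nat.sub_self, pow_zero, one_smul, Nat.sub_zero, mul_one] at h
  rw [← h]
  unfold Hj
  rw [Finset.mul_sum, ← Finset.sum_sub_distrib]
  apply Finset.sum_congr rfl
  intro i hi
  rw [Finset.mem_range] at hi
  have e1 : j - (i + 1) = j - 1 - i := by omega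
  have e2 : j - i = (j - 1 - i) + 1 := by omega
  rw [e1, e2, smul_smul, ← pow_succ]
  ring

lemma Lam_add (μ : T →+ R) (g : R[X]) (s t : T) : Lam μ g (s + t) = Lam μ g s + Lam μ g t := by
  unfold Lam
  rw [← Finset.sum_add_distrib]
  apply Finset.sum_congr rfl
  intro i _
  rw [Hj_add, mul_add]

lemma Lam_C (μ : T →+ R) (hμ : ∀ (r : R) (t : T), μ ((C r : R[X]) • t) = r * μ t) (g : R[X])
    (r : R) (s : T) : Lam μ g ((C r : R[X]) • s) = C r * Lam μ g s := by
  unfold Lam
  rw [Finset.mul_sum]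
  apply Finset.sum_congr rfl
  intro i _
  rw [Hj_C μ hμ]
  ring

lemma Lam_X (μ : T →+ R) (hμ : ∀ (r : R) (t : T), μ ((C r : R[X]) • t) = r * μ t) (g : R[X])
    (s : T) (h0 : μ (g • s) = 0) :
    Lam μ g ((X : R[X]) • s) = X * Lam μ g s - C (μ s) * g := by
  have h1 : X * Lam μ g s - Lam μ g ((X : R[X]) • s)
      = ∑ j ∈ range (g.natDegree + 1), (C (μ s) * (C (g.coeff j) * X ^ j)
        - C (μ ((C (g.coeff j) * X ^ j : R[X]) • s))) := by
    unfold Lam
    rw [Finset.mul_sum, ← Finset.sum_sub_distrib]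
    apply Finset.sum_congr rfl
    intro j _
    have := Hj_X μ j s
    have e : X * (C (g.coeff j) * Hj μ j s) - C (g.coeff j) * Hj μ j ((X : R[X]) • s)
        = C (g.coeff j) * (X * Hj μ j s - Hj μ j ((X : R[X]) • s)) := by ring
    rw [e, this, ← smul_smul, hμ, C_mul]
    ring
  rw [Finset.sum_sub_distrib, ← Finset.mul_sum, ← g.as_sum_range_C_mul_X_pow] at h1
  have h2 : ∑ j ∈ range (g.natDegree + 1), C (μ ((C (g.coeff j) * X ^ j : R[X]) • s))
      = C (μ (g • s)) := by
    rw [← map_sum, ← map_sum, ← Finset.sum_smul, ← g.as_sum_range_C_mul_X_pow]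
  rw [h2, h0, C_0, sub_zero] at h1
  rw [← h1]
  ring

lemma Hj_degree (μ : T →+ R) (j : ℕ) (s : T) : (Hj μ j s).degree < j := by
  rw [← mem_degreeLT]
  unfold Hj
  apply Submodule.sum_mem
  intro i hi
  rw [Finset.mem_range] at hi
  rw [mem_degreeLT]
  apply lt_of_le_of_lt (degree_C_mul_X_pow_le _ _)
  exact_mod_cast hi

lemma Hj_coeff (μ : T →+ R) (j : ℕ) (s : T) : (Hj μ (j + 1) s).coeff j = μ s := by
  unfold Hj
  rw [finsetSum_coeff, Finset.sum_eq_single j]
  · simp
  · intro i _ hij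
    rw [coeff_C_mul_X_pow, if_neg (Ne.symm hij)]
  · intro h
    simp at h

lemma Lam_degree (μ : T →+ R) (g : R[X]) (s : T) (hd : g.natDegree ≠ 0) :
    (Lam μ g s).degree < g.natDegree := by
  rw [← mem_degreeLT]
  unfold Lam
  apply Submodule.sum_mem
  intro j hj
  rw [Finset.mem_range] at hj
  rw [← smul_eq_C_mul]
  apply Submodule.smul_mem
  rw [mem_degreeLT]
  apply lt_of_lt_of_le (Hj_degree μ j s)
  exact_mod_cast Nat.lt_succ_iff.mp hj

lemma Lam_coeff (μ : T →+ R) (g : R[X]) (s : T) (hg : g.Monic) (d : ℕ) (hd : g.natDegree = d + 1) :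
    (Lam μ g s).coeff d = μ s := by
  unfold Lam
  rw [finsetSum_coeff, Finset.sum_eq_single (d + 1)]
  · rw [coeff_C_mul, Hj_coeff, ← hd, hg.coeff_natDegree, one_mul]
  · intro j hj hne
    rw [Finset.mem_range] at hj
    have hjd : j ≤ d := by omega
    have h0 : (Hj μ j s).coeff d = 0 := by
      apply coeff_eq_zero_of_degree_lt
      apply lt_of_lt_of_le (Hj_degree μ j s)
      exact_mod_cast hjd
    rw [coeff_C_mul, h0, mul_zero]
  · intro h
    exfalso; apply h
    rw [Finset.mem_range]; omega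

/-- the induced `R[X]`-linear map to `R[X]/(g)` -/
noncomputable def LamBar (μ : T →+ R) (hμ : ∀ (r : R) (t : T), μ ((C r : R[X]) • t) = r * μ t)
    (g : R[X]) (h0 : ∀ s : T, μ (g • s) = 0) : T →ₗ[R[X]] (R[X] ⧸ Ideal.span {g}) where
  toFun s := Ideal.Quotient.mk _ (Lam μ g s)
  map_add' s t := by rw [Lam_add, map_add]
  map_smul' p s := by
    have hX : ∀ s : T, Ideal.Quotient.mk (Ideal.span {g}) (Lam μ g ((X : R[X]) • s))
        = Ideal.Quotient.mk (Ideal.span {g}) (X * Lam μ g s) := by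
      intro s
      rw [Lam_X μ hμ g s (h0 s), Ideal.Quotient.eq, Ideal.mem_span_singleton]
      exact ⟨-C (μ s), by ring⟩
    have key : Ideal.Quotient.mk (Ideal.span {g}) (Lam μ g (p • s))
        = Ideal.Quotient.mk (Ideal.span {g}) (p * Lam μ g s) := by
      induction p using Polynomial.induction_on' with
      | add p q hp hq => rw [add_smul, Lam_add, map_add, hp, hq, add_mul, map_add]
      | monomial n r =>
        induction n with
        | zero =>
          rw [monomial_zero_left, Lam_C μ hμ]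
        | succ n ih =>
          have e : (monomial (n + 1) r : R[X]) = X * monomial n r := by
            rw [X_mul_monomial]
          rw [e, ← smul_smul, hX, map_mul, ih, ← map_mul, mul_assoc]
    rw [RingHom.id_apply, key]
    rfl

end Horner

lemma G_monic (R : Type u) [CommRing R] [Nontrivial R] (n : ℕ) :
    (G (X : R[X]) n).Monic ∧ (G (X : R[X]) n).natDegree ≠ 0 ∧
    (1 + G (X : R[X]) n).Monic ∧ (1 + G (X : R[X]) n).natDegree ≠ 0 := by
  have aux : ∀ f : R[X], f.Monic → f.natDegree ≠ 0 → (1 + f).Monic ∧ (1 + f).natDegree ≠ 0 := by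
    intro f hf hd
    have h1 : (1 : R[X]).degree < f.degree := by
      rw [degree_one, degree_eq_natDegree hf.ne_zero]
      exact_mod_cast Nat.pos_of_ne_zero hd
    refine ⟨hf.add_of_right h1, ?_⟩
    have h2 : (1 + f).natDegree = f.natDegree := natDegree_add_eq_right_of_degree_lt h1
    rw [h2]; exact hd
  induction n with
  | zero =>
    have h1 : (G (X : R[X]) 0).Monic := monic_X
    have h2 : (G (X : R[X]) 0).natDegree ≠ 0 := by
      show (X : R[X]).natDegree ≠ 0
      rw [natDegree_X]; exact one_ne_zero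
    exact ⟨h1, h2, aux _ h1 h2⟩
  | succ n ih =>
    obtain ⟨a, b, c, d⟩ := ih
    have h1 : (G (X : R[X]) (n + 1)).Monic := a.mul c
    have h2 : (G (X : R[X]) (n + 1)).natDegree ≠ 0 := by
      show (G (X : R[X]) n * (1 + G (X : R[X]) n)).natDegree ≠ 0
      rw [a.natDegree_mul c]
      omega
    exact ⟨h1, h2, aux _ h1 h2⟩

/-- **Content theorem** (all characteristics): for a splinter `R` and a finite `R[X]`-algebra `T`
with `Spec T → Spec R[X]` surjective there is an `R[X]`-linear map `ψ : T → R[X]` such that the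
coefficients of `ψ 1` generate the unit ideal of `R`. -/
theorem content_theorem {R : Type u} [CommRing R] (hR : IsSplinter R) (T : Type u) [CommRing T]
    [Algebra R[X] T] [Module.Finite R[X] T]
    (hs : Function.Surjective (PrimeSpectrum.comap (algebraMap R[X] T))) :
    ∃ ψ : T →ₗ[R[X]] R[X], Ideal.span (Set.range (ψ 1).coeff) = ⊤ := by
  rcases subsingleton_or_nontrivial R with hsub | hnt
  · exact ⟨0, Subsingleton.elim _ _⟩
  have hN := hR.1
  obtain ⟨n, hn⟩ := exists_lift (X : R[X]) (fun n a ha => by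
    obtain ⟨-, -, h3, -⟩ := G_monic R n
    exact (h3.mul_right_eq_zero_iff).mp ha) T
  obtain ⟨-, -, hg, hd⟩ := G_monic R n
  generalize 1 + G (X : R[X]) n = g at hn hg hd
  obtain ⟨μ, hμ1, hμ2, hμ3⟩ := exists_functional hR hs hg hd
  obtain ⟨ψ, hψ⟩ := hn (LamBar μ hμ1 g hμ2)
  refine ⟨ψ, ?_⟩
  rw [Ideal.eq_top_iff_one]
  set I : Ideal R := Ideal.span (Set.range (ψ 1).coeff) with hI
  have h1 : Ideal.Quotient.mk (Ideal.span {g}) (ψ 1) = Ideal.Quotient.mk (Ideal.span {g}) (Lam μ g 1) :=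
    hψ 1
  rw [Ideal.Quotient.eq, Ideal.mem_span_singleton] at h1
  obtain ⟨c, hc⟩ := h1
  have hdeg : (Lam μ g 1).degree < g.degree := by
    rw [degree_eq_natDegree hg.ne_zero]
    exact Lam_degree μ g 1 hd
  have h2 : ψ 1 %ₘ g = Lam μ g 1 := by
    refine (div_modByMonic_unique c (Lam μ g 1) hg ⟨?_, hdeg⟩).2
    rw [← hc]; ring
  have h3 : (ψ 1).map (Ideal.Quotient.mk I) = 0 := by
    ext i
    rw [coeff_map, coeff_zero, Ideal.Quotient.eq_zero_iff_mem]
    exact Ideal.subset_span ⟨i, rfl⟩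
  have h4 : (Lam μ g 1).map (Ideal.Quotient.mk I) = 0 := by
    rw [← h2, map_modByMonic _ hg, h3, zero_modByMonic]
  obtain ⟨d, hd'⟩ := Nat.exists_eq_succ_of_ne_zero hd
  have h5 := Lam_coeff μ g 1 hg d hd'
  have h6 : Ideal.Quotient.mk I ((Lam μ g 1).coeff d) = 0 := by
    rw [← coeff_map, h4, coeff_zero]
  rw [h5, hμ3] at h6
  exact Ideal.Quotient.eq_zero_iff_mem.mp h6

end H338Spl
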