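import Pool.Agent.H338R3.Spl.Content

set_option autoImplicit false

namespace H338Spl

open Polynomial

universe u

lemma exists_smul_zero {A : Type u} [CommRing A] [IsNoetherianRing A] {M : Type u}
    [AddCommGroup M] [Module A M] (n : Ideal A) [hn : n.IsPrime] (g : A)
    (hF : ∀ P ∈ associatedPrimes A M, P ≤ n → g ∉ P) (y : M) (hy : g • y = 0) :
    ∃ s, s ∉ n ∧ s • y = 0 := by
  by_contra hcon
  push Not at hcon
  let N : Submodule A M := Submodule.span A {y}
  have hfin : Module.Finite A N := Module.Finite.span_singleton A y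
  have hann : ∀ a : A, a ∈ Module.annihilator A N ↔ a • y = 0 := by
    intro a
    rw [Module.mem_annihilator]
    constructor
    · intro h
      have := h ⟨y, Submodule.mem_span_singleton_self y⟩
      exact congrArg Subtype.val this
    · rintro h ⟨m, hm⟩
      obtain ⟨c, rfl⟩ := Submodule.mem_span_singleton.mp hm
      apply Subtype.ext
      show a • c • y = 0
      rw [smul_comm, h, smul_zero]
  have hle : Module.annihilator A N ≤ n := by
    intro a ha
    by_contra hna
    exact hcon a hna ((hann a).mp ha)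
  obtain ⟨P, hP, hPn⟩ := Ideal.exists_minimalPrimes_le hle
  have hass := Module.associatedPrimes.minimalPrimes_annihilator_subset_associatedPrimes A N hP
  have hass2 : P ∈ associatedPrimes A M :=
    associatedPrimes.subset_of_injective (f := N.subtype) N.injective_subtype hass
  exact hF P hass2 hPn (hP.1.2 ((hann g).mpr hy))

/-- local lifting lemma -/
lemma exists_lift_local {A : Type u} [CommRing A] [IsNoetherianRing A]
    (T : Type u) [AddCommGroup T] [Module A T] [Module.Finite A T] :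
    ∃ F : Set (Ideal A), F.Finite ∧ (∀ P ∈ F, P.IsPrime) ∧ ∀ n : Ideal A, n.IsPrime → ∀ g : A,
      (∀ a : A, g * a = 0 → a = 0) → (∀ P ∈ F, P ≤ n → g ∉ P) →
      ∀ L : T →ₗ[A] (A ⧸ Ideal.span {g}), ∃ s : A, s ∉ n ∧ ∃ ψ : T →ₗ[A] A,
        ∀ t, Ideal.Quotient.mk _ (ψ t) = Ideal.Quotient.mk _ s * L t := by
  obtain ⟨r, π, hπ⟩ := Module.Finite.exists_fin' A T
  let P := Fin r → A
  let Z := LinearMap.ker π
  have : IsNoetherian A P := inferInstance
  have : Module.Finite A Z := inferInstance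
  obtain ⟨m, σ, hσ⟩ := Module.Finite.exists_fin' A Z
  have hN : IsNoetherian A (Z →ₗ[A] A) := by
    have : IsNoetherian A ((Fin m → A) →ₗ[A] A) := inferInstance
    apply isNoetherian_of_injective (LinearMap.lcomp A A σ)
    intro a b hab
    ext z
    obtain ⟨w, rfl⟩ := hσ z
    exact congrArg (fun h => h w) hab
  let res : (P →ₗ[A] A) →ₗ[A] (Z →ₗ[A] A) := LinearMap.lcomp A A Z.subtype
  have hMfin : Module.Finite A ((Z →ₗ[A] A) ⧸ LinearMap.range res) := inferInstance
  refine ⟨associatedPrimes A ((Z →ₗ[A] A) ⧸ LinearMap.range res), associatedPrimes.finite _ _,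
    fun P hP => hP.isPrime, ?_⟩
  intro n hn g hreg' hF L
  have hginj : Function.Injective (LinearMap.lsmul A A g) := by
    rw [injective_iff_map_eq_zero]
    intro a ha
    exact hreg' a ha
  obtain ⟨Lt, hLt⟩ := Module.projective_lifting_property
    ((Ideal.span {g}).mkQ : A →ₗ[A] A ⧸ Ideal.span {g}) (L ∘ₗ π) (Submodule.mkQ_surjective _)
  have hLt' : ∀ z, Ideal.Quotient.mk (Ideal.span {g}) (Lt z) = L (π z) := fun z =>
    congrArg (fun h => h z) hLt
  have hz : ∀ z : Z, Lt z ∈ LinearMap.range (LinearMap.lsmul A A g) := by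
    intro z
    have h1 := hLt' z
    have h2 : π (z : P) = 0 := z.2
    rw [h2, map_zero, Ideal.Quotient.eq_zero_iff_mem, Ideal.mem_span_singleton] at h1
    obtain ⟨c, hc⟩ := h1
    exact ⟨c, hc.symm⟩
  let ζ : Z →ₗ[A] A := (LinearEquiv.ofInjective _ hginj).symm.toLinearMap ∘ₗ
    (LinearMap.codRestrict _ (Lt ∘ₗ Z.subtype) hz)
  have hζ : ∀ z : Z, g * ζ z = Lt z := by
    intro z
    have := LinearEquiv.apply_symm_apply (LinearEquiv.ofInjective _ hginj)
      ((LinearMap.codRestrict _ (Lt ∘ₗ Z.subtype) hz) z)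
    exact congrArg Subtype.val this
  have hgz : g • (Submodule.mkQ (LinearMap.range res)) ζ = 0 := by
    rw [← map_smul, Submodule.mkQ_apply, Submodule.Quotient.mk_eq_zero]
    refine ⟨Lt, ?_⟩
    ext z
    exact (hζ z).symm
  obtain ⟨s, hsn, hs⟩ := exists_smul_zero n g hF _ hgz
  rw [← map_smul, Submodule.mkQ_apply, Submodule.Quotient.mk_eq_zero] at hs
  obtain ⟨ξ, hξ⟩ := hs
  have hξ' : ∀ z : Z, ξ z = s * ζ z := fun z => congrArg (fun h => h z) hξ
  let Φ : P →ₗ[A] A := s • Lt - g • ξ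
  have hΦ : ∀ z ∈ LinearMap.ker π, Φ z = 0 := by
    intro z hz'
    have h1 := hζ ⟨z, hz'⟩
    have h2 := hξ' ⟨z, hz'⟩
    have h3 : s * Lt z = g * ξ z := by
      calc s * Lt z = s * (g * ζ ⟨z, hz'⟩) := by rw [h1]
        _ = g * (s * ζ ⟨z, hz'⟩) := by ring
        _ = g * ξ z := by rw [← h2]
    simp only [Φ, LinearMap.sub_apply, LinearMap.smul_apply, smul_eq_mul]
    rw [h3, sub_self]
  let ψ : T →ₗ[A] A := (Submodule.liftQ (LinearMap.ker π) Φ hΦ) ∘ₗ
    (LinearMap.quotKerEquivOfSurjective π hπ).symm.toLinearMap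
  refine ⟨s, hsn, ψ, fun t => ?_⟩
  obtain ⟨w, rfl⟩ := hπ t
  have h3 : ψ (π w) = Φ w := by
    simp only [ψ, LinearMap.comp_apply, LinearEquiv.coe_coe]
    have : (LinearMap.quotKerEquivOfSurjective π hπ).symm (π w) = Submodule.Quotient.mk w := by
      rw [LinearEquiv.symm_apply_eq]
      simp
    rw [this]
    exact Submodule.liftQ_apply _ _ _
  rw [h3]
  simp only [Φ, LinearMap.sub_apply, LinearMap.smul_apply, smul_eq_mul]
  rw [map_sub, map_mul, hLt' w]
  have : Ideal.Quotient.mk (Ideal.span {g}) (g * ξ w) = 0 := by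
    rw [Ideal.Quotient.eq_zero_iff_mem, Ideal.mem_span_singleton]
    exact ⟨_, rfl⟩
  rw [this, sub_zero]

/-- **Finiteness of the exceptional primes**: for a splinter `R` of any characteristic and a finite
`R[X]`-algebra `T` with `Spec T → Spec R[X]` surjective, the map `R[X] → T` splits at all but
finitely many of the primes of `R[X]` that contain a polynomial `X - r`, `r ∈ R`. -/
theorem finite_exceptions {R : Type u} [CommRing R] (hR : IsSplinter R) (T : Type u) [CommRing T]
    [Algebra R[X] T] [Module.Finite R[X] T]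
    (hs : Function.Surjective (PrimeSpectrum.comap (algebraMap R[X] T))) :
    ∃ F : Set (Ideal R[X]), F.Finite ∧ ∀ n : Ideal R[X], n.IsPrime → (∃ r : R, X - C r ∈ n) →
      n ∉ F → ∃ ψ : T →ₗ[R[X]] R[X], ψ 1 ∉ n := by
  have hN := hR.1
  obtain ⟨F, hFfin, hFp, hF⟩ := exists_lift_local (A := R[X]) T
  refine ⟨F, hFfin, ?_⟩
  rintro n hn ⟨r, hr⟩ hnF
  have hnt : Nontrivial R := by
    by_contra h
    rw [not_nontrivial_iff_subsingleton] at h
    exact hn.ne_top (Subsingleton.elim _ _)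
  let p : Ideal R := n.comap C
  obtain ⟨b, hbp, hb⟩ : ∃ b ∈ p, ∀ P ∈ F, P ≤ n → ¬ p ≤ P.comap C → C b ∉ P := by
    let F' : Set (Ideal R[X]) := {P | P ∈ F ∧ P ≤ n ∧ ¬ p ≤ P.comap C}
    have hF'fin : F'.Finite := hFfin.subset (fun P hP => hP.1)
    by_contra hcon
    push Not at hcon
    have hsub : (p : Set R) ⊆ ⋃ P ∈ F', ((P.comap C : Ideal R) : Set R) := by
      intro b hb
      obtain ⟨P, hP, hPn, hPp, hbP⟩ := hcon b hb
      simp only [Set.mem_iUnion]
      exact ⟨P, ⟨hP, hPn, hPp⟩, hbP⟩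
    obtain ⟨P, hP, hle⟩ := (Ideal.subset_union_prime_finite hF'fin
      (f := fun P : Ideal R[X] => P.comap C) ⊤ ⊤ (fun P hP _ _ => by
        have := hFp P hP.1
        exact Ideal.comap_isPrime _ _)).1 hsub
    exact hP.2.2 hle
  let g : ℕ → R[X] := fun k => X - C (r + b ^ (k + 1))
  have hgC : ∀ k, g k + C (b ^ (k + 1)) = X - C r := by
    intro k
    simp only [g, C_add]
    ring
  have key : ∀ P ∈ F, P ≤ n → ∀ k l, k < l → g k ∈ P → g l ∈ P → False := by
    intro P hP hPn k l hkl hk hl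
    by_cases hc : p ≤ P.comap C
    · apply hnF
      have hXr : X - C r ∈ P := by
        rw [← hgC k]
        exact P.add_mem hk (hc (Ideal.pow_mem_of_mem _ hbp _ (Nat.succ_pos k)))
      have hle : n ≤ P := by
        intro f hf
        obtain ⟨q, hq⟩ := X_sub_C_dvd_sub_C_eval (a := r) (p := f)
        have h1 : C (f.eval r) ∈ n := by
          have : C (f.eval r) = f - (X - C r) * q := by rw [← hq]; ring
          rw [this]
          exact n.sub_mem hf (n.mul_mem_right _ hr)
        have h2 : C (f.eval r) ∈ P := hc h1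
        have : f = (X - C r) * q + C (f.eval r) := by rw [← hq]; ring
        rw [this]
        exact P.add_mem (P.mul_mem_right _ hXr) h2
      rw [le_antisymm hle hPn]
      exact hP
    · have hbP := hb P hP hPn hc
      have hPprime := hFp P hP
      obtain ⟨d, rfl⟩ := Nat.exists_eq_add_of_lt hkl
      have h1 : g k - g (k + d + 1) = (C b) ^ (k + 1) * ((C b) ^ (d + 1) - 1) := by
        simp only [g, C_add, C_pow]
        ring
      have h2 : (C b) ^ (k + 1) * ((C b) ^ (d + 1) - 1) ∈ P := by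
        rw [← h1]; exact P.sub_mem hk hl
      rcases hPprime.mem_or_mem h2 with h3 | h3
      · exact hbP (hPprime.mem_of_pow_mem _ h3)
      · apply hn.ne_top
        rw [Ideal.eq_top_iff_one]
        have h4 : (C b) ^ (d + 1) ∈ n := Ideal.pow_mem_of_mem n (show C b ∈ n from hbp) _ (Nat.succ_pos d)
        have : (1 : R[X]) = (C b) ^ (d + 1) - ((C b) ^ (d + 1) - 1) := by ring
        rw [this]
        exact n.sub_mem h4 (hPn h3)
  have hKfin : (⋃ P ∈ F, {k : ℕ | P ≤ n ∧ g k ∈ P}).Finite := by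
    apply hFfin.biUnion
    intro P hP
    apply Set.Subsingleton.finite
    rintro k ⟨hPn, hk⟩ l ⟨-, hl⟩
    rcases lt_trichotomy k l with h | h | h
    · exact (key P hP hPn k l h hk hl).elim
    · exact h
    · exact (key P hP hPn l k h hl hk).elim
  obtain ⟨k, hk⟩ := hKfin.exists_notMem
  have hk' : ∀ P ∈ F, P ≤ n → g k ∉ P := by
    intro P hP hPn hgP
    apply hk
    simp only [Set.mem_iUnion]
    exact ⟨P, hP, hPn, hgP⟩
  have hgn : g k ∈ n := by
    have : g k = (X - C r) - C (b ^ (k + 1)) := by rw [← hgC k]; ring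
    rw [this]
    exact n.sub_mem hr (Ideal.pow_mem_of_mem p hbp _ (Nat.succ_pos k))
  have hg : (g k).Monic := monic_X_sub_C _
  have hd1 : (g k).natDegree = 0 + 1 := natDegree_X_sub_C _
  generalize g k = f at hk' hgn hg hd1
  have hd : f.natDegree ≠ 0 := by omega
  obtain ⟨μ, hμ1, hμ2, hμ3⟩ := exists_functional hR hs hg hd
  obtain ⟨s, hsn, ψ, hψ⟩ := hF n hn f (fun a ha => (hg.mul_right_eq_zero_iff).mp ha) hk'
    (LamBar μ hμ1 f hμ2)
  refine ⟨ψ, fun hmem => hsn ?_⟩
  have hL : Lam μ f 1 = 1 := by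
    have h1 := Lam_degree μ f 1 hd
    rw [hd1] at h1
    have h2 : (Lam μ f 1).degree ≤ 0 := by
      have h3 : (Lam μ f 1).degree < ((1 : ℕ) : WithBot ℕ) := h1
      exact Nat.WithBot.lt_one_iff_le_zero.mp (by exact_mod_cast h3)
    rw [eq_C_of_degree_le_zero h2, Lam_coeff μ f 1 hg 0 hd1, hμ3, C_1]
  have h1 : Ideal.Quotient.mk (Ideal.span {f}) (ψ 1) = Ideal.Quotient.mk _ s * Ideal.Quotient.mk _ (Lam μ f 1) :=
    hψ 1
  rw [hL, map_one (Ideal.Quotient.mk (Ideal.span {f})), mul_one, Ideal.Quotient.eq,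
    Ideal.mem_span_singleton] at h1
  obtain ⟨c, hc⟩ := h1
  have : s = ψ 1 - f * c := by rw [← hc]; ring
  rw [this]
  exact n.sub_mem hmem (n.mul_mem_right _ hgn)

/-- the set of the primes that contain a polynomial `X - r` and at which `R[X] → T` does not split -/
def Exc (R : Type u) [CommRing R] (T : Type u) [CommRing T] [Algebra R[X] T] :
    Set (PrimeSpectrum R[X]) :=
  {n | (∃ r : R, X - C r ∈ n.asIdeal) ∧ ∀ ψ : T →ₗ[R[X]] R[X], ψ 1 ∈ n.asIdeal}

theorem exc_finite {R : Type u} [CommRing R] (hR : IsSplinter R) (T : Type u) [CommRing T]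
    [Algebra R[X] T] [Module.Finite R[X] T]
    (hs : Function.Surjective (PrimeSpectrum.comap (algebraMap R[X] T))) :
    (Exc R T).Finite := by
  obtain ⟨F, hF, h⟩ := finite_exceptions hR T hs
  apply Set.Finite.of_finite_image (f := PrimeSpectrum.asIdeal)
  · apply hF.subset
    rintro _ ⟨n, ⟨hr, hn⟩, rfl⟩
    by_contra hnF
    obtain ⟨ψ, hψ⟩ := h n.asIdeal n.2 hr hnF
    exact hψ (hn ψ)
  · intro a _ b _ hab
    exact PrimeSpectrum.ext hab

theorem exc_small {R : Type u} [CommRing R] (hR : IsSplinter R) (T : Type u) [CommRing T]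
    [Algebra R[X] T] [Module.Finite R[X] T]
    (hs : Function.Surjective (PrimeSpectrum.comap (algebraMap R[X] T)))
    (n : PrimeSpectrum R[X]) (hn : n ∈ Exc R T) :
    {q : PrimeSpectrum R | n.asIdeal.comap C ≤ q.asIdeal}.Finite := by
  obtain ⟨⟨r, hr⟩, hψ⟩ := hn
  apply Set.Finite.of_finite_image (f := PrimeSpectrum.comap (evalRingHom r))
  · apply (exc_finite hR T hs).subset
    rintro _ ⟨q, hq, rfl⟩
    have hle : n.asIdeal ≤ (PrimeSpectrum.comap (evalRingHom r) q).asIdeal := by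
      intro f hf
      show f.eval r ∈ q.asIdeal
      obtain ⟨c, hc⟩ := X_sub_C_dvd_sub_C_eval (a := r) (p := f)
      have h1 : C (f.eval r) ∈ n.asIdeal := by
        have : C (f.eval r) = f - (X - C r) * c := by rw [← hc]; ring
        rw [this]
        exact n.asIdeal.sub_mem hf (n.asIdeal.mul_mem_right _ hr)
      exact hq h1
    exact ⟨⟨r, hle hr⟩, fun ψ => hle (hψ ψ)⟩
  · intro a _ b _ hab
    ext x
    have h1 := congrArg (fun P => C x ∈ PrimeSpectrum.asIdeal P) hab
    have h2 : ∀ q : PrimeSpectrum R, (C x ∈ (PrimeSpectrum.comap (evalRingHom r) q).asIdeal) ↔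
        x ∈ q.asIdeal := by
      intro q
      show (C x : R[X]).eval r ∈ q.asIdeal ↔ x ∈ q.asIdeal
      rw [eval_C]
    rw [← h2 a, ← h2 b]
    exact iff_of_eq h1

end H338Spl
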