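import Pool.Agent.H338R3.Spl.Content

set_option autoImplicit false

namespace H338Spl

open Polynomial Finset

universe u

/-- `R` viewed as an algebra over itself via the `e`-th power of Frobenius -/
def Fr (R : Type u) (_p _e : ℕ) : Type u := R

instance (R : Type u) [CommRing R] (p e : ℕ) : CommRing (Fr R p e) := inferInstanceAs (CommRing R)

/-- the ring `R` maps to `Fr R p e` by `a ↦ a ^ (p ^ e)` -/
noncomputable def frHom (R : Type u) [CommRing R] (p e : ℕ) [ExpChar R p] : R →+* Fr R p e :=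
  iterateFrobenius R p e

noncomputable instance (R : Type u) [CommRing R] (p e : ℕ) [ExpChar R p] : Algebra R (Fr R p e) :=
  (frHom R p e).toAlgebra

lemma frHom_apply (R : Type u) [CommRing R] (p e : ℕ) [ExpChar R p] (a : R) :
    frHom R p e a = (a ^ p ^ e : R) := iterateFrobenius_def p e a

lemma frHom_comap_surjective (R : Type u) [CommRing R] (p e : ℕ) [Fact p.Prime] [CharP R p] :
    Function.Surjective (PrimeSpectrum.comap (frHom R p e)) := by
  intro P
  refine ⟨(⟨(P.asIdeal : Ideal R), P.2⟩ : PrimeSpectrum R), ?_⟩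
  ext a
  show frHom R p e a ∈ (P.asIdeal : Ideal R) ↔ a ∈ P.asIdeal
  rw [frHom_apply]
  exact ⟨fun h => P.2.mem_of_pow_mem _ h, fun h => Ideal.pow_mem_of_mem _ h _
    (pow_pos (Fact.out (p := p.Prime)).pos _)⟩

/-- the splittings of finitely generated subextensions of `F^e_* R` -/
lemma frob_split {R : Type u} [CommRing R] (hR : IsSplinter R) (p : ℕ) [Fact p.Prime] [CharP R p]
    (e : ℕ) (s : Set R) (hs : s.Finite) :
    ∃ (S₀ : Subring R) (ρ : R → R), (∀ x ∈ s, x ∈ S₀) ∧ (∀ a : R, a ^ p ^ e ∈ S₀) ∧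
      (∀ x ∈ S₀, ∀ y ∈ S₀, ρ (x + y) = ρ x + ρ y) ∧
      (∀ a : R, ∀ x ∈ S₀, ρ (a ^ p ^ e * x) = a * ρ x) ∧ ρ 1 = 1 := by
  classical
  have hq : 0 < p ^ e := pow_pos (Fact.out (p := p.Prime)).pos _
  let s' : Set (Fr R p e) := s
  have hint : ∀ x : Fr R p e, IsIntegral R x := by
    intro x
    apply IsIntegral.of_pow hq
    have : x ^ p ^ e = algebraMap R (Fr R p e) (x : R) := (frHom_apply R p e x).symm
    rw [this]
    exact isIntegral_algebraMap
  let B := Algebra.adjoin R s'
  have hfg : (Subalgebra.toSubmodule B).FG := fg_adjoin_of_finite hs (fun x _ => hint x)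
  have hfin : Module.Finite R B := ⟨by
    rw [← Submodule.fg_top] at hfg
    exact hfg⟩
  have hsurj : Function.Surjective (PrimeSpectrum.comap (algebraMap R B)) := by
    intro P
    obtain ⟨Q, hQ⟩ := frHom_comap_surjective R p e P
    refine ⟨PrimeSpectrum.comap B.val.toRingHom Q, ?_⟩
    rw [← hQ]
    rfl
  obtain ⟨ρ, hρ⟩ := hR.2 B hfin hsurj
  let S₀ : Subring R := B.toSubring
  have hmem : ∀ x : R, x ∈ S₀ → (x : Fr R p e) ∈ B := fun x hx => hx
  have hpow : ∀ a : R, a ^ p ^ e ∈ S₀ := by
    intro a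
    have h1 : algebraMap R (Fr R p e) a ∈ B := B.algebraMap_mem a
    have h2 : algebraMap R (Fr R p e) a = (a ^ p ^ e : R) := frHom_apply R p e a
    rw [h2] at h1
    exact h1
  refine ⟨S₀, fun x => if h : x ∈ S₀ then ρ ⟨x, hmem x h⟩ else 0, ?_, hpow, ?_, ?_, ?_⟩
  · intro x hx
    have : (x : Fr R p e) ∈ Algebra.adjoin R s' :=
      Algebra.subset_adjoin (R := R) (A := Fr R p e) (show (x : Fr R p e) ∈ s' from hx)
    exact this
  · intro x hx y hy
    simp only
    rw [dif_pos hx, dif_pos hy, dif_pos (S₀.add_mem hx hy), ← map_add]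
    rfl
  · intro a x hx
    simp only
    rw [dif_pos hx, dif_pos (S₀.mul_mem (hpow a) hx)]
    have := ρ.map_smul a ⟨x, hmem x hx⟩
    rw [smul_eq_mul] at this
    rw [← this]
    congr 1
  · simp only
    rw [dif_pos S₀.one_mem]
    exact hρ

lemma add_pow_q {A T : Type u} [CommRing A] [CommRing T] [Algebra A T] (p : ℕ) [hp : Fact p.Prime]
    [CharP A p] (e : ℕ) (x y : T) : (x + y) ^ p ^ e = x ^ p ^ e + y ^ p ^ e := by
  rcases subsingleton_or_nontrivial T with h | h
  · exact Subsingleton.elim _ _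
  · have h1 : (p : T) = 0 := by
      rw [← map_natCast (algebraMap A T), CharP.cast_eq_zero, map_zero]
    have : CharP T p := (CharP.charP_iff_prime_eq_zero hp.out).mpr h1
    exact add_pow_char_pow x y p e

section

variable {R : Type u} [CommRing R]

/-- the `j`-th component of a polynomial over `F^e_* R`, composed with `ρ (a * ·)` -/
noncomputable def D (ρ : R → R) (a : R) (q j : ℕ) (h : R[X]) : R[X] :=
  ∑ i ∈ range (h.natDegree + 1), monomial i (ρ (a * h.coeff (q * i + j)))

lemma D_coeff (ρ : R → R) (hρ : ρ 0 = 0) (a : R) (q j : ℕ) (hq : 0 < q) (h : R[X]) (i : ℕ) :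
    (D ρ a q j h).coeff i = ρ (a * h.coeff (q * i + j)) := by
  unfold D
  rw [finsetSum_coeff]
  by_cases hi : i < h.natDegree + 1
  · rw [Finset.sum_eq_single i]
    · rw [coeff_monomial, if_pos rfl]
    · intro b _ hb
      rw [coeff_monomial, if_neg hb]
    · intro h'
      exact absurd (Finset.mem_range.mpr hi) h'
  · rw [Finset.sum_eq_zero]
    · have h1 : h.natDegree < q * i + j := by
        have : i ≤ q * i := Nat.le_mul_of_pos_left i hq
        omega
      rw [coeff_eq_zero_of_natDegree_lt h1, mul_zero, hρ]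
    · intro b hb
      rw [Finset.mem_range] at hb
      rw [coeff_monomial, if_neg (by omega)]

end

/-- **Frobenius step**: the ideal `{ψ 1}` of `R[X]` is extended from `R`. -/
theorem frob_step {R : Type u} [CommRing R] (hR : IsSplinter R) (p : ℕ) [hp : Fact p.Prime]
    [CharP R p] (T : Type u) [CommRing T] [Algebra R[X] T] [Module.Finite R[X] T]
    (ψ : T →ₗ[R[X]] R[X]) (j : ℕ) :
    ∃ ψ' : T →ₗ[R[X]] R[X], ψ' 1 = C ((ψ 1).coeff j) := by
  classical
  set f := ψ 1 with hf
  let e := f.natDegree + j + 1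
  let q := p ^ e
  have heq : e < q := Nat.lt_pow_self hp.out.one_lt
  have hjq : j < q := by omega
  have hfq : f.natDegree < q := by omega
  have hq : 0 < q := by omega
  let a : R := (f.coeff j) ^ (q - 1)
  obtain ⟨t, ht⟩ := (Module.Finite.fg_top : (⊤ : Submodule R[X] T).FG)
  let s : Set R := insert a (⋃ x ∈ t, Set.range (ψ (x ^ q)).coeff)
  have hsfin : s.Finite := by
    apply Set.Finite.insert
    apply Set.Finite.biUnion t.finite_toSet
    intro x _
    apply Set.Finite.subset ((((ψ (x ^ q)).support.image (ψ (x ^ q)).coeff) ∪ {0}).finite_toSet)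
    rintro y ⟨n, rfl⟩
    by_cases hn : (ψ (x ^ q)).coeff n = 0
    · rw [hn]; simp
    · simp only [coe_union, coe_image, coe_singleton]
      left
      exact ⟨n, by simpa [mem_support_iff] using hn, rfl⟩
  obtain ⟨S₀, ρ, h1, h2, h3, h4, h5⟩ := frob_split hR p e s hsfin
  have hρ0 : ρ 0 = 0 := by
    have := h4 0 1 S₀.one_mem
    rw [zero_pow hq.ne', zero_mul, zero_mul] at this
    exact this
  have ha : a ∈ S₀ := h1 a (Set.mem_insert _ _)
  -- coefficients of q-th powers
  have hPq : ∀ (P : R[X]) (m : ℕ), (P ^ q).coeff m ∈ S₀ := by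
    intro P m
    have : (P ^ q) = map (iterateFrobenius R p e) (expand R q P) :=
      (map_iterateFrobenius_expand p P e).symm
    rw [this, coeff_map, coeff_expand hq]
    split_ifs
    · rw [iterateFrobenius_def]; exact h2 _
    · rw [map_zero]; exact S₀.zero_mem
  have hmulS : ∀ (P h : R[X]), (∀ m, h.coeff m ∈ S₀) → ∀ m, (P ^ q * h).coeff m ∈ S₀ := by
    intro P h hh m
    rw [coeff_mul]
    apply S₀.sum_mem
    intro x _
    exact S₀.mul_mem (hPq P _) (hh _)
  have hpowadd : ∀ x y : T, (x + y) ^ q = x ^ q + y ^ q := fun x y => add_pow_q (A := R[X]) p e x y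
  have hψsmul : ∀ (P : R[X]) (x : T), ψ ((P • x) ^ q) = P ^ q * ψ (x ^ q) := by
    intro P x
    rw [_root_.smul_pow, map_smul, smul_eq_mul]
  -- all coefficients lie in S₀
  have hall : ∀ x : T, ∀ m, (ψ (x ^ q)).coeff m ∈ S₀ := by
    intro x
    have hx : x ∈ Submodule.span R[X] (t : Set T) := by rw [ht]; trivial
    induction hx using Submodule.span_induction with
    | mem x hx =>
      intro m
      apply h1
      apply Set.mem_insert_of_mem
      simp only [Set.mem_iUnion]
      exact ⟨x, hx, m, rfl⟩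
    | zero =>
      intro m
      rw [zero_pow hq.ne', map_zero, coeff_zero]
      exact S₀.zero_mem
    | add x y _ _ hx hy =>
      intro m
      rw [hpowadd, map_add, coeff_add]
      exact S₀.add_mem (hx m) (hy m)
    | smul P x _ hx =>
      rw [hψsmul]
      exact hmulS P _ hx
  have hDadd : ∀ h h' : R[X], (∀ m, h.coeff m ∈ S₀) → (∀ m, h'.coeff m ∈ S₀) →
      D ρ a q j (h + h') = D ρ a q j h + D ρ a q j h' := by
    intro h h' hh hh'
    ext i
    rw [coeff_add, D_coeff ρ hρ0 a q j hq, D_coeff ρ hρ0 a q j hq, D_coeff ρ hρ0 a q j hq,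
      coeff_add, mul_add]
    exact h3 _ (S₀.mul_mem ha (hh _)) _ (S₀.mul_mem ha (hh' _))
  have hDsmul : ∀ (P h : R[X]), (∀ m, h.coeff m ∈ S₀) →
      D ρ a q j (P ^ q * h) = P * D ρ a q j h := by
    intro P
    induction P using Polynomial.induction_on' with
    | add P Q hP hQ =>
      intro h hh
      have e1 : (P + Q) ^ q * h = P ^ q * h + Q ^ q * h := by
        have : (P + Q) ^ q = P ^ q + Q ^ q := add_pow_char_pow P Q p e
        rw [this, add_mul]
      rw [e1, hDadd _ _ (hmulS P h hh) (hmulS Q h hh), hP h hh, hQ h hh, add_mul]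
    | monomial n r =>
      intro h hh
      ext i
      rw [D_coeff ρ hρ0 a q j hq]
      have e1 : (monomial n r : R[X]) ^ q * h = X ^ (n * q) * (C (r ^ q) * h) := by
        rw [← C_mul_X_pow_eq_monomial, mul_pow, ← C_pow, ← pow_mul]
        ring
      have e2 : (monomial n r : R[X]) * D ρ a q j h = X ^ n * (C r * D ρ a q j h) := by
        rw [← C_mul_X_pow_eq_monomial]
        ring
      rw [e1, e2, coeff_X_pow_mul', coeff_X_pow_mul']
      by_cases hni : n ≤ i
      · have h6 : n * q ≤ q * i + j := by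
          have : n * q ≤ i * q := Nat.mul_le_mul_right q hni
          rw [mul_comm q i]
          omega
        have h7 : q * i + j - n * q = q * (i - n) + j := by
          obtain ⟨k, rfl⟩ := Nat.exists_eq_add_of_le hni
          have : q * (n + k) = n * q + q * k := by ring
          rw [this, Nat.add_sub_cancel_left]
          omega
        rw [if_pos h6, if_pos hni, h7, coeff_C_mul, coeff_C_mul, D_coeff ρ hρ0 a q j hq]
        have e3 : a * (r ^ q * h.coeff (q * (i - n) + j)) = r ^ q * (a * h.coeff (q * (i - n) + j)) := by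
          ring
        rw [e3]
        exact h4 r _ (S₀.mul_mem ha (hh _))
      · have h6 : ¬ (n * q ≤ q * i + j) := by
          intro h8
          have h9 : (i + 1) * q ≤ n * q := Nat.mul_le_mul_right q (by omega)
          have h10 : (i + 1) * q = q * i + q := by ring
          omega
        rw [if_neg h6, if_neg hni, mul_zero, hρ0]
  let ψ' : T →ₗ[R[X]] R[X] :=
    { toFun := fun x => D ρ a q j (ψ (x ^ q))
      map_add' := by
        intro x y
        rw [hpowadd, map_add]
        exact hDadd _ _ (hall x) (hall y)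
      map_smul' := by
        intro P x
        rw [hψsmul, hDsmul P _ (hall x)]
        rfl }
  refine ⟨ψ', ?_⟩
  show D ρ a q j (ψ (1 ^ q)) = _
  rw [one_pow, ← hf]
  ext i
  rw [D_coeff ρ hρ0 a q j hq, coeff_C]
  by_cases hi : i = 0
  · subst hi
    rw [if_pos rfl, mul_zero, zero_add]
    have e4 : a * f.coeff j = (f.coeff j) ^ q * 1 := by
      show (f.coeff j) ^ (q - 1) * f.coeff j = _
      rw [← pow_succ, Nat.sub_add_cancel hq, mul_one]
    rw [e4]
    have := h4 (f.coeff j) 1 S₀.one_mem
    rw [h5, mul_one (f.coeff j)] at this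
    exact this
  · rw [if_neg hi]
    have h6 : f.natDegree < q * i + j := by
      have : q * 1 ≤ q * i := Nat.mul_le_mul_left q (Nat.pos_of_ne_zero hi)
      omega
    rw [coeff_eq_zero_of_natDegree_lt h6, mul_zero, hρ0]

/-- **Theorem**: over a splinter of prime characteristic the polynomial ring is a splinter. -/
theorem splinter_polynomial {R : Type u} [CommRing R] (hR : IsSplinter R) (p : ℕ)
    [hp : Fact p.Prime] [CharP R p] : IsSplinter R[X] := by
  refine ⟨by have := hR.1; infer_instance, ?_⟩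
  intro T _ _ hfin hs
  obtain ⟨ψ, hψ⟩ := content_theorem hR T hs
  -- the ideal of all c with C c = ψ' 1
  let J : Ideal R :=
    { carrier := {c | ∃ ψ' : T →ₗ[R[X]] R[X], ψ' 1 = C c}
      add_mem' := by
        rintro a b ⟨ψ₁, h₁⟩ ⟨ψ₂, h₂⟩
        exact ⟨ψ₁ + ψ₂, by rw [LinearMap.add_apply, h₁, h₂, C_add]⟩
      zero_mem' := ⟨0, by simp⟩
      smul_mem' := by
        rintro c a ⟨ψ₁, h₁⟩
        exact ⟨(C c : R[X]) • ψ₁, by rw [LinearMap.smul_apply, h₁]; simp⟩ }
  have hJ : Ideal.span (Set.range (ψ 1).coeff) ≤ J := by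
    rw [Ideal.span_le]
    rintro c ⟨j, rfl⟩
    exact frob_step hR p T ψ j
  have h1 : (1 : R) ∈ J := by
    apply hJ
    rw [hψ]
    trivial
  obtain ⟨ψ', h'⟩ := h1
  exact ⟨ψ', by rw [h', C_1]⟩

end H338Spl
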