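import Pool.Agent.H338R3.Spl.Lift

set_option autoImplicit false

namespace H338Spl

open Polynomial

universe u

/-- splinter property in terms of ring homomorphisms -/
lemma IsSplinter.split {A : Type u} [CommRing A] (hA : IsSplinter A) {T : Type u} [CommRing T]
    (φ : A →+* T) (hfin : φ.Finite) (hs : Function.Surjective (PrimeSpectrum.comap φ)) :
    ∃ ρ : T →+ A, (∀ a t, ρ (φ a * t) = a * ρ t) ∧ ρ 1 = 1 := by
  let _ := φ.toAlgebra
  obtain ⟨ρ, hρ⟩ := hA.2 T hfin hs
  refine ⟨ρ.toAddMonoidHom, fun a t => ?_, hρ⟩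
  have := ρ.map_smul a t
  rw [Algebra.smul_def] at this
  exact this

lemma finite_of_monic {R : Type u} [CommRing R] {g : R[X]} (hg : g.Monic) :
    (AdjoinRoot.of g).Finite := by
  have := hg.finite_adjoinRoot
  have h := RingHom.finite_algebraMap.mpr this
  rwa [AdjoinRoot.algebraMap_eq] at h

lemma inj_of_monic {R : Type u} [CommRing R] {g : R[X]} (hg : g.Monic) (hd : g.natDegree ≠ 0) :
    Function.Injective (AdjoinRoot.of g) := by
  rw [injective_iff_map_eq_zero]
  intro a ha
  have h1 : AdjoinRoot.mk g (C a) = 0 := ha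
  rw [AdjoinRoot.mk_eq_zero] at h1
  by_contra hne
  have hnt : Nontrivial R := ⟨a, 0, hne⟩
  have h2 : (C a) %ₘ g = 0 := (modByMonic_eq_zero_iff_dvd hg).mpr h1
  have h3 : (C a) %ₘ g = C a := by
    rw [modByMonic_eq_self_iff hg]
    apply lt_of_le_of_lt degree_C_le
    rw [degree_eq_natDegree hg.ne_zero]
    exact_mod_cast Nat.pos_of_ne_zero hd
  rw [h3] at h2
  exact hne (C_eq_zero.mp h2)

/-- the specialisation: a functional on `T/gT` -/
lemma exists_functional {R : Type u} [CommRing R] (hR : IsSplinter R) {T : Type u} [CommRing T]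
    [Algebra R[X] T] [Module.Finite R[X] T]
    (hs : Function.Surjective (PrimeSpectrum.comap (algebraMap R[X] T)))
    {g : R[X]} (hg : g.Monic) (hd : g.natDegree ≠ 0) :
    ∃ μ : T →+ R, (∀ (r : R) (t : T), μ ((C r : R[X]) • t) = r * μ t) ∧
      (∀ t : T, μ (g • t) = 0) ∧ μ 1 = 1 := by
  let I : Ideal T := Ideal.span {algebraMap R[X] T g}
  let B := T ⧸ I
  let π : T →+* B := Ideal.Quotient.mk I
  have hπ : Function.Surjective π := Ideal.Quotient.mk_surjective
  let β : R[X] →+* B := π.comp (algebraMap R[X] T)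
  have hβg : β g = 0 := by
    show π (algebraMap R[X] T g) = 0
    rw [Ideal.Quotient.eq_zero_iff_mem]
    exact Ideal.subset_span rfl
  let α : AdjoinRoot g →+* B := Ideal.Quotient.lift (Ideal.span {g}) β (by
    intro a ha
    rw [Ideal.mem_span_singleton] at ha
    obtain ⟨c, rfl⟩ := ha
    rw [map_mul, hβg, zero_mul])
  have hαβ : α.comp (AdjoinRoot.mk g) = β := by
    ext a
    · rfl
    · rfl
  have hβfin : β.Finite :=
    (RingHom.Finite.of_surjective π hπ).comp (RingHom.finite_algebraMap.mpr inferInstance)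
  have hαfin : α.Finite := by
    apply RingHom.Finite.of_comp_finite (f := AdjoinRoot.mk g)
    rw [hαβ]; exact hβfin
  let φ : R →+* B := α.comp (AdjoinRoot.of g)
  have hφ : φ = β.comp C := by
    rw [← hαβ]
    rfl
  have hφfin : φ.Finite := hαfin.comp (finite_of_monic hg)
  have hφs : Function.Surjective (PrimeSpectrum.comap φ) := by
    intro P
    obtain ⟨P1, hP1⟩ := RingHom.IsIntegral.comap_surjective (finite_of_monic hg).to_isIntegral
      (inj_of_monic hg hd) P
    obtain ⟨Q, hQ⟩ := hs (PrimeSpectrum.comap (AdjoinRoot.mk g) P1)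
    have hQg : algebraMap R[X] T g ∈ Q.asIdeal := by
      have h1 : g ∈ (PrimeSpectrum.comap (AdjoinRoot.mk g) P1).asIdeal := by
        rw [PrimeSpectrum.comap_asIdeal, Ideal.mem_comap, AdjoinRoot.mk_self]
        exact Ideal.zero_mem _
      rw [← hQ] at h1
      exact h1
    have hker : RingHom.ker π ≤ Q.asIdeal := by
      rw [Ideal.mk_ker, Ideal.span_le, Set.singleton_subset_iff]
      exact hQg
    have hprime : (Q.asIdeal.map π).IsPrime := Ideal.map_isPrime_of_surjective hπ hker
    have hcomap : (Q.asIdeal.map π).comap π = Q.asIdeal := by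
      rw [Ideal.comap_map_of_surjective π hπ]
      exact sup_eq_left.mpr hker
    refine ⟨⟨Q.asIdeal.map π, hprime⟩, ?_⟩
    have h2 : PrimeSpectrum.comap π ⟨Q.asIdeal.map π, hprime⟩ = Q := PrimeSpectrum.ext hcomap
    have h3 : PrimeSpectrum.comap β ⟨Q.asIdeal.map π, hprime⟩
        = PrimeSpectrum.comap (AdjoinRoot.mk g) P1 := by
      rw [← hQ]
      exact congrArg (PrimeSpectrum.comap (algebraMap R[X] T)) h2
    rw [hφ, ← hP1]
    show PrimeSpectrum.comap C (PrimeSpectrum.comap β ⟨Q.asIdeal.map π, hprime⟩) = _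
    rw [h3]
    rfl
  obtain ⟨ρ, hρ1, hρ2⟩ := hR.split φ hφfin hφs
  refine ⟨ρ.comp π.toAddMonoidHom, fun r t => ?_, fun t => ?_, ?_⟩
  · show ρ (π ((C r : R[X]) • t)) = r * ρ (π t)
    rw [← hρ1, hφ]
    congr 1
    rw [Algebra.smul_def, map_mul]
    rfl
  · show ρ (π (g • t)) = 0
    rw [Algebra.smul_def, map_mul]
    have : π (algebraMap R[X] T g) = 0 := hβg
    rw [this, zero_mul, map_zero]
  · show ρ (π 1) = 1
    rw [map_one]; exact hρ2

end H338Spl
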