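import Mathlib

set_option autoImplicit false

namespace H338Spl

open Polynomial

universe u

/-- `A` is a splinter: `A` is Noetherian and every finite `A`-algebra `T` with
`Spec T → Spec A` surjective admits an `A`-linear map `T → A` with `1 ↦ 1`. -/
def IsSplinter (A : Type u) [CommRing A] : Prop :=
  IsNoetherianRing A ∧ ∀ (T : Type u) [CommRing T] [Algebra A T], Module.Finite A T →
    Function.Surjective (PrimeSpectrum.comap (algebraMap A T)) →
    ∃ ρ : T →ₗ[A] A, ρ 1 = 1

section Chain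

variable {A : Type u} [CommRing A]

/-- the family `G 0 = x`, `G (n+1) = G n * (1 + G n)` -/
def G (x : A) : ℕ → A
  | 0 => x
  | n + 1 => G x n * (1 + G x n)

/-- for a Noetherian module some `1 + G n` is a nonzerodivisor -/
lemma exists_regular (x : A) (M : Type u) [AddCommGroup M] [Module A M] [IsNoetherian A M] :
    ∃ n, ∀ y : M, (1 + G x n) • y = 0 → y = 0 := by
  let f : ℕ →o Submodule A M :=
    ⟨fun n => Submodule.torsionBy A M (G x n), by
      apply monotone_nat_of_le_succ
      intro n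
      apply Submodule.torsionBy_le_torsionBy_of_dvd
      exact ⟨1 + G x n, rfl⟩⟩
  obtain ⟨n, hn⟩ := monotone_stabilizes_iff_noetherian.mpr (inferInstance : IsNoetherian A M) f
  refine ⟨n, fun y hy => ?_⟩
  have h1 : y ∈ Submodule.torsionBy A M (G x (n + 1)) := by
    rw [Submodule.mem_torsionBy_iff]
    show (G x n * (1 + G x n)) • y = 0
    rw [mul_smul, hy, smul_zero]
  have h2 : y ∈ Submodule.torsionBy A M (G x n) := by
    have := hn (n + 1) (Nat.le_succ n)
    change Submodule.torsionBy A M (G x n) = Submodule.torsionBy A M (G x (n+1)) at this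
    rw [this]; exact h1
  rw [Submodule.mem_torsionBy_iff] at h2
  rw [add_smul, one_smul, h2, add_zero] at hy
  exact hy

end Chain

section Lifting

variable {A : Type u} [CommRing A] [IsNoetherianRing A]

/-- The lifting lemma. `A` Noetherian, `T` a finite module: for some `n`, if `g = 1 + G n` is a
nonzerodivisor of `A`, every linear map `T → A/(g)` lifts to a linear map `T → A`. -/
lemma exists_lift (x : A) (hreg : ∀ n, ∀ a : A, (1 + G x n) * a = 0 → a = 0)
    (T : Type u) [AddCommGroup T] [Module A T] [Module.Finite A T] :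
    ∃ n, ∀ L : T →ₗ[A] (A ⧸ Ideal.span {1 + G x n}),
      ∃ ψ : T →ₗ[A] A, ∀ t, Ideal.Quotient.mk _ (ψ t) = L t := by
  obtain ⟨r, π, hπ⟩ := Module.Finite.exists_fin' A T
  let P := Fin r → A
  let Z := LinearMap.ker π
  have : IsNoetherian A P := inferInstance
  have : Module.Finite A Z := inferInstance
  obtain ⟨m, σ, hσ⟩ := Module.Finite.exists_fin' A Z
  have hN : IsNoetherian A (Z →ₗ[A] A) := by
    have : IsNoetherian A ((Fin m → A) →ₗ[A] A) := inferInstance
    apply isNoetherian_of_injective (LinearMap.lcomp A A σ)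
    intro a b hab
    ext z
    obtain ⟨w, rfl⟩ := hσ z
    exact congrArg (fun h => h w) hab
  let res : (P →ₗ[A] A) →ₗ[A] (Z →ₗ[A] A) := LinearMap.lcomp A A Z.subtype
  obtain ⟨n, hn⟩ := exists_regular x ((Z →ₗ[A] A) ⧸ LinearMap.range res)
  refine ⟨n, ?_⟩
  have hreg' := hreg n
  generalize 1 + G x n = g at hn hreg' ⊢
  intro L
  have hginj : Function.Injective (LinearMap.lsmul A A g) := by
    rw [injective_iff_map_eq_zero]
    intro a ha
    exact hreg' a ha
  obtain ⟨Lt, hLt⟩ := Module.projective_lifting_property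
    ((Ideal.span {g}).mkQ : A →ₗ[A] A ⧸ Ideal.span {g}) (L ∘ₗ π) (Submodule.mkQ_surjective _)
  have hLt' : ∀ z, Ideal.Quotient.mk (Ideal.span {g}) (Lt z) = L (π z) := fun z =>
    congrArg (fun h => h z) hLt
  have hz : ∀ z : Z, Lt z ∈ LinearMap.range (LinearMap.lsmul A A g) := by
    intro z
    have h1 := hLt' z
    have h2 : π (z : P) = 0 := z.2
    rw [h2, map_zero, Ideal.Quotient.eq_zero_iff_mem, Ideal.mem_span_singleton] at h1
    obtain ⟨c, hc⟩ := h1
    exact ⟨c, hc.symm⟩
  let ζ : Z →ₗ[A] A := (LinearEquiv.ofInjective _ hginj).symm.toLinearMap ∘ₗ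
    (LinearMap.codRestrict _ (Lt ∘ₗ Z.subtype) hz)
  have hζ : ∀ z : Z, g * ζ z = Lt z := by
    intro z
    have := LinearEquiv.apply_symm_apply (LinearEquiv.ofInjective _ hginj)
      ((LinearMap.codRestrict _ (Lt ∘ₗ Z.subtype) hz) z)
    exact congrArg Subtype.val this
  have hq : (Submodule.mkQ (LinearMap.range res)) ζ = 0 := by
    apply hn
    rw [← map_smul, Submodule.mkQ_apply, Submodule.Quotient.mk_eq_zero]
    refine ⟨Lt, ?_⟩
    ext z
    exact (hζ z).symm
  rw [Submodule.mkQ_apply, Submodule.Quotient.mk_eq_zero] at hq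
  obtain ⟨ξ, hξ⟩ := hq
  have hξ' : ∀ z : Z, ξ z = ζ z := fun z => congrArg (fun h => h z) hξ
  let Φ : P →ₗ[A] A := Lt - g • ξ
  have hΦ : ∀ z ∈ LinearMap.ker π, Φ z = 0 := by
    intro z hz'
    have h1 := hζ ⟨z, hz'⟩
    have h2 := hξ' ⟨z, hz'⟩
    simp only [Φ, LinearMap.sub_apply, LinearMap.smul_apply, smul_eq_mul]
    rw [← h1, ← h2]
    exact sub_self _
  let ψ : T →ₗ[A] A := (Submodule.liftQ (LinearMap.ker π) Φ hΦ) ∘ₗ
    (LinearMap.quotKerEquivOfSurjective π hπ).symm.toLinearMap
  refine ⟨ψ, fun t => ?_⟩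
  obtain ⟨w, rfl⟩ := hπ t
  have h3 : ψ (π w) = Φ w := by
    simp only [ψ, LinearMap.comp_apply, LinearEquiv.coe_coe]
    have : (LinearMap.quotKerEquivOfSurjective π hπ).symm (π w) = Submodule.Quotient.mk w := by
      rw [LinearEquiv.symm_apply_eq]
      simp
    rw [this]
    exact Submodule.liftQ_apply _ _ _
  rw [h3]
  simp only [Φ, LinearMap.sub_apply, LinearMap.smul_apply, smul_eq_mul]
  rw [map_sub, hLt' w]
  have : Ideal.Quotient.mk (Ideal.span {g}) (g * ξ w) = 0 := by
    rw [Ideal.Quotient.eq_zero_iff_mem, Ideal.mem_span_singleton]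
    exact ⟨_, rfl⟩
  rw [this, sub_zero]

end Lifting

end H338Spl
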