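import Pool.Agent.H338R3.Spl.Frob

set_option autoImplicit false

namespace H338Spl

open Polynomial Finset

universe u

/-- descent of finite algebras from a localisation at a set of nonzerodivisors -/
lemma descend {A : Type u} [CommRing A] (M : Submonoid A) (hM : ∀ m ∈ M, ∀ a : A, m * a = 0 → a = 0)
    (B : Type u) [CommRing B] [Algebra A B] [IsLocalization M B] (T : Type u) [CommRing T]
    [Algebra B T] [Algebra A T] [IsScalarTower A B T] [Module.Finite B T]
    (hs : Function.Surjective (PrimeSpectrum.comap (algebraMap B T))) :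
    ∃ T₀ : Subalgebra A T, Module.Finite A T₀ ∧
      Function.Surjective (PrimeSpectrum.comap (algebraMap A T₀)) ∧
      ∀ ψ : T₀ →ₗ[A] A, ψ 1 ∈ M → ∃ ρ : T →ₗ[B] B, ρ 1 = 1 := by
  classical
  obtain ⟨t, ht⟩ := (Module.Finite.fg_top : (⊤ : Submodule B T).FG)
  have hint : ∀ x : T, ∃ m : M, IsIntegral A (m • x) := fun x =>
    IsIntegral.exists_multiple_integral_of_isLocalization M x (Algebra.IsIntegral.isIntegral (R := B) x)
  choose m hm using hint
  let s : Set T := (fun x => m x • x) '' (t : Set T)
  have hsfin : s.Finite := t.finite_toSet.image _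
  let T₀ := Algebra.adjoin A s
  have hfg : (Subalgebra.toSubmodule T₀).FG := fg_adjoin_of_finite hsfin (by
    rintro x ⟨y, _, rfl⟩
    exact hm y)
  have hfin : Module.Finite A T₀ := ⟨by
    rw [← Submodule.fg_top] at hfg
    exact hfg⟩
  have hunit : ∀ n : M, IsUnit (algebraMap A T n) := by
    intro n
    rw [IsScalarTower.algebraMap_apply A B T]
    exact (IsLocalization.map_units B n).map _
  -- every element of T is a fraction
  have hfrac : ∀ x : T, ∃ n : M, (n : A) • x ∈ T₀ := by
    intro x
    have hx : x ∈ Submodule.span B (t : Set T) := by rw [ht]; trivial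
    induction hx using Submodule.span_induction with
    | mem x hx => exact ⟨m x, Algebra.subset_adjoin ⟨x, hx, rfl⟩⟩
    | zero => exact ⟨1, by rw [smul_zero]; exact T₀.zero_mem⟩
    | add x y _ _ hx hy =>
      obtain ⟨n1, h1⟩ := hx
      obtain ⟨n2, h2⟩ := hy
      refine ⟨n1 * n2, ?_⟩
      have e : ((n1 * n2 : M) : A) • (x + y) = (n2 : A) • ((n1 : A) • x) + (n1 : A) • ((n2 : A) • y) := by
        rw [smul_add, smul_smul, smul_smul, Submonoid.coe_mul, mul_comm (n2 : A) (n1 : A)]
      rw [e]
      exact T₀.add_mem (T₀.smul_mem h1 _) (T₀.smul_mem h2 _)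
    | smul b x _ hx =>
      obtain ⟨n1, h1⟩ := hx
      obtain ⟨⟨a, n2⟩, h2⟩ := IsLocalization.surj M b
      refine ⟨n2 * n1, ?_⟩
      have e : ((n2 * n1 : M) : A) • (b • x) = a • ((n1 : A) • x) := by
        rw [Submonoid.coe_mul, mul_smul, ← algebraMap_smul B (n1 : A) (b • x),
          ← algebraMap_smul B (n2 : A) (algebraMap A B n1 • b • x), ← algebraMap_smul B a,
          ← algebraMap_smul B (n1 : A) x]
        simp only [smul_smul]
        simp only at h2
        rw [← h2]
        congr 1
        ring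
      rw [e]
      exact T₀.smul_mem h1 _
  refine ⟨T₀, hfin, ?_, ?_⟩
  · -- surjectivity on spectra
    have hnil : ∀ a : A, algebraMap A T a = 0 → ∃ N : ℕ, a ^ N = 0 := by
      intro a ha
      have h1 : IsNilpotent (algebraMap A B a) := by
        rw [nilpotent_iff_mem_prime]
        intro P hP
        obtain ⟨Q, hQ⟩ := hs ⟨P, hP⟩
        have h2 : algebraMap A B a ∈ (PrimeSpectrum.comap (algebraMap B T) Q).asIdeal := by
          rw [PrimeSpectrum.comap_asIdeal, Ideal.mem_comap, ← IsScalarTower.algebraMap_apply, ha]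
          exact Q.asIdeal.zero_mem
        rw [hQ] at h2
        exact h2
      obtain ⟨N, hN⟩ := h1
      rw [← map_pow, IsLocalization.map_eq_zero_iff M B] at hN
      obtain ⟨n, hn⟩ := hN
      exact ⟨N, hM n n.2 _ hn⟩
    intro P
    have hle : Ideal.comap (algebraMap A T₀) ⊥ ≤ P.asIdeal := by
      intro a ha
      rw [Ideal.mem_comap, Ideal.mem_bot] at ha
      have h1 : algebraMap A T a = 0 := congrArg Subtype.val ha
      obtain ⟨N, hN⟩ := hnil a h1
      apply P.2.mem_of_pow_mem N
      rw [hN]; exact P.asIdeal.zero_mem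
    have hPp := P.2
    obtain ⟨Q, -, hQ1, hQ2⟩ := Ideal.exists_ideal_over_prime_of_isIntegral P.asIdeal ⊥ hle
    exact ⟨⟨Q, hQ1⟩, PrimeSpectrum.ext hQ2⟩
  · intro ψ hψ
    have hloc : IsLocalizedModule M T₀.val.toLinearMap := by
      refine IsLocalizedModule.mk ?_ ?_ ?_
      · intro n
        rw [Module.End.isUnit_iff]
        obtain ⟨v, hv⟩ := hunit n
        refine ⟨fun x y hxy => ?_, fun y => ⟨(↑v⁻¹ : T) * y, ?_⟩⟩
        · simp only [Module.algebraMap_end_apply, Algebra.smul_def] at hxy
          rw [← hv] at hxy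
          exact (Units.mul_right_inj v).mp hxy
        · simp only [Module.algebraMap_end_apply, Algebra.smul_def]
          rw [← hv, Units.mul_inv_cancel_left]
      · intro y
        obtain ⟨n, hn⟩ := hfrac y
        exact ⟨⟨⟨(n : A) • y, hn⟩, n⟩, rfl⟩
      · intro x y hxy
        exact ⟨1, by rw [Subtype.ext hxy]⟩
    let ρ₀ : T →ₗ[A] B := IsLocalizedModule.map M T₀.val.toLinearMap (Algebra.linearMap A B) ψ
    have hρ₀ : ρ₀ 1 = algebraMap A B (ψ 1) := by
      have := IsLocalizedModule.map_apply M T₀.val.toLinearMap (Algebra.linearMap A B) ψ 1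
      exact this
    let ρ₁ : T →ₗ[B] B := LinearMap.extendScalarsOfIsLocalization M B ρ₀
    obtain ⟨v, hv⟩ := IsLocalization.map_units B (⟨ψ 1, hψ⟩ : M)
    refine ⟨(↑v⁻¹ : B) • ρ₁, ?_⟩
    rw [LinearMap.smul_apply]
    have h1 : ρ₁ 1 = algebraMap A B (ψ 1) := hρ₀
    rw [h1, smul_eq_mul]
    have h2 : (v : B) = algebraMap A B (ψ 1) := hv
    rw [← h2, Units.inv_mul]

/-- the multiplicative set of polynomials of unit content -/
def unitContent (R : Type u) [CommRing R] : Submonoid R[X] where
  carrier := {f | Ideal.span (Set.range f.coeff) = ⊤}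
  one_mem' := by
    rw [Set.mem_ofPred_eq, Ideal.eq_top_iff_one]
    exact Ideal.subset_span ⟨0, by simp⟩
  mul_mem' := by
    intro f g hf hg
    rw [Set.mem_ofPred_eq] at hf hg ⊢
    by_contra hne
    obtain ⟨P, hP, hle⟩ := Ideal.exists_le_maximal _ hne
    have hPp := hP.isPrime
    have hPC := Ideal.isPrime_map_C_of_isPrime (P := P)
    have h1 : f * g ∈ Ideal.map C P := by
      rw [Ideal.mem_map_C_iff]
      intro n
      exact hle (Ideal.subset_span ⟨n, rfl⟩)
    have key : ∀ h : R[X], Ideal.span (Set.range h.coeff) = ⊤ → h ∉ Ideal.map C P := by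
      intro h hh hm
      rw [Ideal.mem_map_C_iff] at hm
      apply hP.ne_top
      rw [← top_le_iff, ← hh, Ideal.span_le]
      rintro _ ⟨n, rfl⟩
      exact hm n
    rcases hPC.mem_or_mem h1 with h | h
    · exact key f hf h
    · exact key g hg h

lemma unitContent_regular {R : Type u} [CommRing R] : ∀ m ∈ unitContent R, ∀ a : R[X],
    m * a = 0 → a = 0 := by
  intro m hm a ha
  by_contra hne
  have h1 : m ∉ nonZeroDivisors R[X] := by
    intro h
    exact hne ((mul_left_mem_nonZeroDivisors_eq_zero_iff h).mp ha)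
  rw [Polynomial.notMem_nonZeroDivisors_iff] at h1
  obtain ⟨c, hc, hcm⟩ := h1
  apply hc
  have h2 : Ideal.span (Set.range m.coeff) ≤ LinearMap.ker (LinearMap.lsmul R R c) := by
    rw [Ideal.span_le]
    rintro _ ⟨n, rfl⟩
    have := congrArg (fun f => f.coeff n) hcm
    simpa using this
  have h3 : (1 : R) ∈ LinearMap.ker (LinearMap.lsmul R R c) := by
    apply h2
    have : Ideal.span (Set.range m.coeff) = ⊤ := hm
    rw [this]; trivial
  simpa using h3

/-- The Nagata ring `R(X)`: the localisation of `R[X]` at the polynomials of unit content. -/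
abbrev NagataRing (R : Type u) [CommRing R] : Type u := Localization (unitContent R)

theorem splinter_nagata_aux {R : Type u} [CommRing R] (hR : IsSplinter R) (B : Type u) [CommRing B]
    [Algebra R[X] B] [IsLocalization (unitContent R) B] : IsSplinter B := by
  have hN := hR.1
  refine ⟨IsLocalization.isNoetherianRing (unitContent R) B inferInstance, ?_⟩
  intro T _ _ hfin hs
  let _ : Algebra R[X] T := ((algebraMap B T).comp (algebraMap R[X] B)).toAlgebra
  have : IsScalarTower R[X] B T := IsScalarTower.of_algebraMap_eq (fun _ => rfl)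
  obtain ⟨T₀, h1, h2, h3⟩ := descend (unitContent R) unitContent_regular B T hs
  obtain ⟨ψ, hψ⟩ := content_theorem hR T₀ h2
  exact h3 ψ hψ

/-- **Theorem** (all characteristics): if `R` is a splinter then so is `R(X)`. -/
theorem splinter_nagata {R : Type u} [CommRing R] (hR : IsSplinter R) :
    IsSplinter (NagataRing R) := splinter_nagata_aux hR _

end H338Spl
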