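import Pool.Agent.H338R3.Spl.Loc

set_option autoImplicit false

namespace H338Spl

open Polynomial Finset

universe u

lemma IsSplinter.of_equiv {A B : Type u} [CommRing A] [CommRing B] (e : A ≃+* B)
    (hA : IsSplinter A) : IsSplinter B := by
  have := hA.1
  refine ⟨isNoetherianRing_of_ringEquiv A e, ?_⟩
  intro T _ _ hfin hs
  let φ : A →+* T := (algebraMap B T).comp (e : A →+* B)
  have hφ : φ.Finite := (RingHom.finite_algebraMap.mpr hfin).comp
    (RingHom.Finite.of_surjective (e : A →+* B) e.surjective)
  have hφs : Function.Surjective (PrimeSpectrum.comap φ) := by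
    intro P
    obtain ⟨Q, hQ⟩ := hs (PrimeSpectrum.comap (e.symm : B →+* A) P)
    refine ⟨Q, ?_⟩
    show PrimeSpectrum.comap (e : A →+* B) (PrimeSpectrum.comap (algebraMap B T) Q) = P
    rw [hQ]
    ext a
    show e.symm (e a) ∈ P.asIdeal ↔ a ∈ P.asIdeal
    rw [e.symm_apply_apply]
  obtain ⟨ρ, h1, h2⟩ := hA.split φ hφ hφs
  refine ⟨{ toFun := fun t => e (ρ t)
            map_add' := fun s t => by rw [map_add, map_add]
            map_smul' := fun b t => ?_ }, ?_⟩
  · have : b • t = φ (e.symm b) * t := by
      rw [Algebra.smul_def]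
      show _ = algebraMap B T (e (e.symm b)) * t
      rw [e.apply_symm_apply]
    rw [this, h1, map_mul, e.apply_symm_apply]
    rfl
  · show e (ρ 1) = 1
    rw [h2, map_one]

/-- polynomial rings in finitely many variables over a splinter of prime characteristic -/
theorem splinter_mvPolynomial {R : Type u} [CommRing R] (hR : IsSplinter R) (p : ℕ)
    [hp : Fact p.Prime] [CharP R p] (n : ℕ) : IsSplinter (MvPolynomial (Fin n) R) := by
  induction n with
  | zero => exact hR.of_equiv (MvPolynomial.isEmptyRingEquiv R (Fin 0)).symm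
  | succ n ih =>
    have h1 : IsSplinter (MvPolynomial (Fin n) R)[X] := splinter_polynomial ih p
    exact h1.of_equiv (MvPolynomial.finSuccEquiv R n).symm.toRingEquiv

end H338Spl
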